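import Pool.Agent.Helper95.AG.Defs
import Pool.Agent.Helper99.AG.Start
import Pool.Agent.Helper30.AF.BaseExp

/-! # Project AG (`MP_9ee088_an`), block BE: expectation over `M` windows, base level -/

set_option autoImplicit false
open MeasureTheory Real Set Filter Topology
open scoped ENNReal

namespace Pool.Agent.Helper30.AG

open Pool.Agent.Helper95.AG
open Pool.Agent.Helper18.UC (nn LL sqo rep toT)
open Pool.Agent.Helper46.QP (TT Td)
open Pool.Agent.Helper82.AN (Ik Ow lawL wt bas eta Hw sq SepR)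
open Pool.Agent.Helper95.AF (st po pM shb tst Fa gA nv ip bad Den rr un frc DC Ho)
open Pool.Agent.Helper30.AF (po_congr pM_congr po_meas pM_meas ip_meas upd_meas vol_sq seq_meas)

/-! ### the Lyapunov function -/

theorem ly_meas (ε s a : ℝ) (m : ℕ) : Measurable fun p : (ℕ → ℝ) × (ℝ × ℝ) => ly ε s a p.1 m p.2 := by
  have h1 : Measurable fun p : (ℕ → ℝ) × (ℝ × ℝ) => |pM a p.1 (m + 1) p.2 0 0| :=
    measurable_norm.comp (pM_meas a (m + 1) 0 0)
  have h2 : Measurable fun p : (ℕ → ℝ) × (ℝ × ℝ) => |pM a p.1 m p.2 0 0| :=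
    measurable_norm.comp (pM_meas a m 0 0)
  have h3 : Measurable fun p : (ℕ → ℝ) × (ℝ × ℝ) => |Real.cos (2 * π * (po a p.1 (m + 1) p.2).1)| + s :=
    (measurable_norm.comp (Real.measurable_cos.comp ((po_meas a (m + 1)).fst.const_mul (2 * π)))).add_const s
  unfold ly lyr
  exact (((ip_meas _).comp h1).mul ((ENNReal.measurable_ofReal.comp (h1.max h2)).pow_const _)).mul ((ip_meas _).comp h3)

theorem ly_congr {ε s a : ℝ} {b b' : ℕ → ℝ} {m : ℕ} (h : ∀ j < m + 1, b j = b' j) (q : ℝ × ℝ) :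
    ly ε s a b m q = ly ε s a b' m q := by
  unfold ly
  rw [pM_congr (n := m + 1) h, pM_congr (n := m) (fun j hj => h j (by omega)), po_congr (n := m + 1) h]

/-- the integral over the square of side `2` -/
noncomputable def IL (ε s a : ℝ) (m : ℕ) (b : ℕ → ℝ) : ℝ≥0∞ := ∫⁻ q in sqo (0, 0) 2, ly ε s a b m q

theorem IL_meas (ε s a : ℝ) (m : ℕ) : Measurable (IL ε s a m) := (ly_meas ε s a m).lintegral_prod_right'

theorem IL_congr {ε s a : ℝ} {b b' : ℕ → ℝ} {m : ℕ} (h : ∀ j < m + 1, b j = b' j) : IL ε s a m b = IL ε s a m b' := by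
  unfold IL
  exact lintegral_congr fun q => ly_congr h q

theorem upd2_meas (ε s a : ℝ) (n m : ℕ) (b : ℕ → ℝ) :
    Measurable fun p : ℝ × (ℝ × ℝ) => ly ε s a (Function.update b m (b m + s * p.1)) n p.2 := by
  have h := (ly_meas ε s a n).comp (((upd_meas b m s).comp measurable_fst).prodMk (measurable_snd (α := ℝ) (β := ℝ × ℝ)))
  exact h

theorem ly_meas1 (ε s a : ℝ) (n : ℕ) (b : ℕ → ℝ) : Measurable fun z : ℝ × ℝ => ly ε s a b n z := by
  have h0 : Measurable fun z : ℝ × ℝ => (b, z) := measurable_const.prodMk measurable_id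
  have h := (ly_meas ε s a n).comp h0
  exact h

theorem IL_step (ε s a : ℝ) (n m : ℕ) (b : ℕ → ℝ) {g : ℝ × ℝ → ℝ≥0∞}
    (h : ∀ z, ∫⁻ t, ly ε s a (Function.update b m (b m + s * t)) n z ∂un ≤ g z) :
    ∫⁻ t, IL ε s a n (Function.update b m (b m + s * t)) ∂un ≤ ∫⁻ z in sqo (0, 0) 2, g z := by
  unfold IL
  rw [lintegral_lintegral_swap]
  · exact lintegral_mono fun z => h z
  · exact (upd2_meas ε s a n m b).aemeasurable

theorem ip_anti {p x y : ℝ} (hp : 0 ≤ p) (h : x ≤ y) : ip p y ≤ ip p x := by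
  unfold ip
  rw [ENNReal.rpow_neg, ENNReal.rpow_neg, ENNReal.inv_le_inv]
  exact ENNReal.rpow_le_rpow (ENNReal.ofReal_le_ofReal h) hp

/-- the Lyapunov function bounds the growth from below -/
theorem ly_ge {ε s a : ℝ} (hε : 0 < ε) (hs1 : s ≤ 1) (b : ℕ → ℝ) (m : ℕ) (q : ℝ × ℝ) :
    ip (ε / 16) (nn (pM a b (m + 1) q)) ≤ 2 * ly ε s a b m q := by
  have hdet := Pool.Agent.Helper6.AF.det_pM a b (m + 1) q
  have hE' : pM a b (m + 1) q 1 0 = pM a b m q 0 0 := by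
    show (Pool.Agent.Helper95.AF.mt a (po a b m q).1 * pM a b m q) 1 0 = _
    rw [Matrix.mul_apply, Fin.sum_univ_two]
    have h1 : Pool.Agent.Helper95.AF.mt a (po a b m q).1 1 0 = 1 := rfl
    have h2 : Pool.Agent.Helper95.AF.mt a (po a b m q).1 1 1 = 0 := rfl
    rw [h1, h2, one_mul, zero_mul, add_zero]
  rw [Matrix.det_fin_two, hE'] at hdet
  obtain ⟨E, hE⟩ : ∃ E, E = pM a b (m + 1) q 0 0 := ⟨_, rfl⟩
  obtain ⟨E', hE1⟩ : ∃ E', E' = pM a b m q 0 0 := ⟨_, rfl⟩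
  obtain ⟨X, hX⟩ : ∃ X, X = max |E| |E'| := ⟨_, rfl⟩
  have hX0 : 0 < X := by
    rw [hX]
    by_contra hcon
    have h1 : |E| = 0 := le_antisymm ((le_max_left _ _).trans (not_lt.1 hcon)) (abs_nonneg _)
    have h2 : |E'| = 0 := le_antisymm ((le_max_right _ _).trans (not_lt.1 hcon)) (abs_nonneg _)
    rw [abs_eq_zero] at h1 h2
    rw [← hE, ← hE1, h1, h2] at hdet
    norm_num at hdet
  have hXn : X ≤ nn (pM a b (m + 1) q) := by
    unfold nn
    rw [hE', ← hE, ← hE1, hX]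
    have h0 := abs_nonneg E
    have h1 := abs_nonneg E'
    have h2 := abs_nonneg (pM a b (m + 1) q 0 1)
    have h3 := abs_nonneg (pM a b (m + 1) q 1 1)
    exact max_le (by linarith) (by linarith)
  have hXo : ENNReal.ofReal X ≠ 0 := by
    rw [Ne, ENNReal.ofReal_eq_zero, not_le]
    exact hX0
  have h1 : ip (ε / 16) X = ip ((1 + ε) / 16) X * ENNReal.ofReal X ^ (1 / 16 : ℝ) := by
    unfold ip
    rw [← ENNReal.rpow_add _ _ hXo ENNReal.ofReal_ne_top]
    congr 1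
    ring
  have h2 : (1 : ℝ≥0∞) ≤ 2 * ip (1 / 16) (|Real.cos (2 * π * (po a b (m + 1) q).1)| + s) := by
    have h3 : ip (1 / 16) 2 ≤ ip (1 / 16) (|Real.cos (2 * π * (po a b (m + 1) q).1)| + s) :=
      ip_anti (by norm_num) (by linarith [Real.abs_cos_le_one (2 * π * (po a b (m + 1) q).1)])
    refine le_trans ?_ (mul_le_mul_right h3 2)
    unfold ip
    have h4 : ENNReal.ofReal 2 = 2 := by norm_num
    rw [h4]
    calc (1 : ℝ≥0∞) = 2 ^ (1 : ℝ) * 2 ^ (-1 : ℝ) := by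
          rw [← ENNReal.rpow_add _ _ (by norm_num) (by norm_num)]
          norm_num
      _ ≤ 2 * 2 ^ (-(1 / 16) : ℝ) := by
          rw [ENNReal.rpow_one]
          gcongr
          · norm_num
          · norm_num
  calc ip (ε / 16) (nn (pM a b (m + 1) q)) ≤ ip (ε / 16) X := ip_anti (by positivity) hXn
    _ = ip ((1 + ε) / 16) X * ENNReal.ofReal X ^ (1 / 16 : ℝ) * 1 := by rw [h1, mul_one]
    _ ≤ ip ((1 + ε) / 16) |E| * ENNReal.ofReal X ^ (1 / 16 : ℝ) *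
        (2 * ip (1 / 16) (|Real.cos (2 * π * (po a b (m + 1) q).1)| + s)) := by
        gcongr
        exact ip_anti (by positivity) (hX ▸ le_max_left _ _)
    _ = 2 * ly ε s a b m q := by
        unfold ly lyr
        rw [← hE, ← hE1, ← hX]
        ring

/-- Markov's inequality for the functional `rr` -/
theorem markov {ε s a : ℝ} (hε : 0 < ε) (hs1 : s ≤ 1) {n : ℕ} {ρ δ cap y Q : ℝ} (hρ : 0 < ρ) (hρ1 : ρ ≤ 1)
    (hδ : 0 < δ) (hy : 0 ≤ y) (hyc : y ≤ cap) (hQ : 0 ≤ Q) (b : ℕ → ℝ) (hb : rr a (n + 1) ρ δ cap b < y) :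
    ENNReal.ofReal Q ≤ ENNReal.ofReal (Q / (δ * ρ ^ 2) * Real.exp (ε / 16 * y) * 2) * IL ε s a n b := by
  have h1 := Pool.Agent.Helper6.AF.rr_not hδ.le hρ hρ1 b hy hb hyc
  have hm : Measurable fun z : ℝ × ℝ => ly ε s a b n z := ly_meas1 ε s a n b
  have h2 := mul_meas_ge_le_lintegral (μ := volume.restrict (sqo (0, 0) 2)) hm (ENNReal.ofReal (Real.exp (-(ε / 16 * y)) / 2))
  have hsq : MeasurableSet (sqo (0, 0) 2) := measurableSet_Ico.prod measurableSet_Ico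
  have h3 : volume (bad a b (n + 1) y ∩ sqo (0, 0) 2) ≤ (volume.restrict (sqo (0, 0) 2))
      {z | ENNReal.ofReal (Real.exp (-(ε / 16 * y)) / 2) ≤ ly ε s a b n z} := by
    rw [Measure.restrict_apply' hsq]
    refine measure_mono (inter_subset_inter_left _ ?_)
    intro z hz
    have hz' : Real.log (nn (pM a b (n + 1) z)) < y := hz
    have h4 := Pool.Agent.Helper6.AF.one_le_nn a b (n + 1) z
    have h5 : nn (pM a b (n + 1) z) < Real.exp y := (Real.log_lt_iff_lt_exp (by linarith)).1 hz'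
    show ENNReal.ofReal (Real.exp (-(ε / 16 * y)) / 2) ≤ ly ε s a b n z
    have h7 : Real.exp (-(ε / 16 * y)) = Real.exp y ^ (-(ε / 16)) := by
      rw [← Real.exp_mul]
      congr 1
      ring
    have h8 : ENNReal.ofReal (Real.exp (-(ε / 16 * y))) ≤ 2 * ly ε s a b n z := by
      refine le_trans ?_ (ly_ge hε hs1 b n z)
      refine le_trans ?_ (ip_anti (by positivity) h5.le)
      unfold ip
      rw [h7, ← ENNReal.ofReal_rpow_of_pos (Real.exp_pos y)]
    rw [div_eq_mul_inv, mul_comm, ENNReal.ofReal_mul (by norm_num)]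
    calc ENNReal.ofReal 2⁻¹ * ENNReal.ofReal (Real.exp (-(ε / 16 * y))) ≤ ENNReal.ofReal 2⁻¹ * (2 * ly ε s a b n z) :=
          mul_le_mul_right h8 _
      _ = ly ε s a b n z := by
          rw [← mul_assoc, show (2 : ℝ≥0∞) = ENNReal.ofReal 2 by norm_num, ← ENNReal.ofReal_mul (by norm_num)]
          norm_num
  have h8 : 0 < δ * ρ ^ 2 := by positivity
  calc ENNReal.ofReal Q = ENNReal.ofReal (Q / (δ * ρ ^ 2) * Real.exp (ε / 16 * y) * 2) *
        (ENNReal.ofReal (Real.exp (-(ε / 16 * y)) / 2) * ENNReal.ofReal (δ * ρ ^ 2)) := by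
        rw [← ENNReal.ofReal_mul (by positivity), ← ENNReal.ofReal_mul (by positivity)]
        congr 1
        rw [show Q / (δ * ρ ^ 2) * Real.exp (ε / 16 * y) * 2 * (Real.exp (-(ε / 16 * y)) / 2 * (δ * ρ ^ 2)) =
          Q / (δ * ρ ^ 2) * (δ * ρ ^ 2) * (Real.exp (ε / 16 * y) * Real.exp (-(ε / 16 * y))) by ring, ← Real.exp_add,
          add_neg_cancel, Real.exp_zero, mul_one, div_mul_cancel₀ _ h8.ne']
    _ ≤ ENNReal.ofReal (Q / (δ * ρ ^ 2) * Real.exp (ε / 16 * y) * 2) * IL ε s a n b := by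
        gcongr
        exact (mul_le_mul_right (h1.trans h3) _).trans h2

/-- **BE**: expectation over `M` windows, base level; the hypothesis is the conclusion of `step_orb` -/
theorem base_exp_of {ε : ℝ} (hε : 0 < ε) (hε1 : ε ≤ 1 / 2)
    (hstep : ∃ C A₀ : ℝ, 1 ≤ C ∧ 1 ≤ A₀ ∧ ∀ (a s : ℝ) (m : ℕ) (b : ℕ → ℝ)
      (q : ℝ × ℝ), A₀ ≤ |a| → s = |a| ^ (ε - 1) →
      ∫⁻ t, ly ε s a (Function.update b m (b m + s * t)) (m + 1) q ∂un ≤
        ENNReal.ofReal (C * |a| ^ (-(ε / 16))) * ly ε s a b m q) : ∃ C A₀ : ℝ, 1 ≤ C ∧ 1 ≤ A₀ ∧ ∀ (d : ℕ) (γ : ℝ) (k : ℕ)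
    (e : Fin k → Td d → ℝ) (U : Fin (k + 1) → ℝ) (α : Td d)
    (r₀ a ρ δ cap y Q : ℝ) (n M N P : ℕ) (β : Fin M → Td d), 0 < γ → (∀ i, Continuous (e i)) → U 0 ≠ 0 →
    0 < r₀ → SepR α r₀ (n + 1) M β → 1 ≤ N → 1 ≤ P → 2 * ((M * (n + 1) : ℕ) : ℝ) ≤ (2 * N * r₀) ^ (2 * P) → A₀ ≤ |a| →
    0 < ρ → ρ ≤ 1 → 0 < δ → 0 ≤ y → y ≤ cap → 0 ≤ Q →
    |a| ^ (ε - 1) ≤ |U 0| * Real.exp (-((P * N : ℝ) ^ γ)) / 20 →
    ∫⁻ w, ∏ l, (1 + ENNReal.ofReal Q *
      {b : ℕ → ℝ | rr a (n + 1) ρ δ cap b < y}.indicator 1 (sq α (frc γ e U w) (β l))) ∂lawL d ≤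
      (ENNReal.ofReal (Real.exp (n + 1) * (1 + Q * (4 / (δ * ρ ^ 2)) * Real.exp (ε / 16 * y) * (C * |a|) *
        (C * |a| ^ (-(ε / 16))) ^ n))) ^ M := by
  obtain ⟨C₁, A₁, hC₁, hA₁, step⟩ := hstep
  obtain ⟨C₂, hC₂, start⟩ := Pool.Agent.Helper99.AG.start_ly
  refine ⟨max C₁ C₂, max A₁ 100, le_max_of_le_left hC₁, le_max_of_le_left hA₁, ?_⟩
  intro d γ k e U α r₀ a ρ δ cap y Q n M N P β hγ he hU hr₀ hS hN hP hint ha hρ hρ1 hδ hy hyc hQ hsU
  obtain ⟨C, hC⟩ : ∃ C, C = max C₁ C₂ := ⟨_, rfl⟩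
  rw [← hC]
  have hCC1 : C₁ ≤ C := hC ▸ le_max_left _ _
  have hCC2 : C₂ ≤ C := hC ▸ le_max_right _ _
  have hC0 : 0 < C := by linarith
  have haA : A₁ ≤ |a| := (le_max_left _ _).trans ha
  have ha100 : 100 ≤ |a| := (le_max_right _ _).trans ha
  have ha0 : 0 < |a| := by linarith
  have hap : 0 < |a| ^ (-(ε / 16)) := Real.rpow_pos_of_pos ha0 _
  obtain ⟨s, hs⟩ : ∃ s, s = |a| ^ (ε - 1) := ⟨_, rfl⟩
  rw [← hs] at hsU
  have hs0 : 0 < s := hs ▸ Real.rpow_pos_of_pos ha0 _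
  have hs1 : s ≤ 1 := by
    rw [hs]
    exact Real.rpow_le_one_of_one_le_of_nonpos (by linarith) (by linarith)
  -- constants
  obtain ⟨A, hA⟩ : ∃ A, A = ENNReal.ofReal (Q / (δ * ρ ^ 2) * Real.exp (ε / 16 * y) * 2) := ⟨_, rfl⟩
  obtain ⟨G, hG⟩ : ∃ G, G = ENNReal.ofReal (C * |a| ^ (-(ε / 16))) := ⟨_, rfl⟩
  obtain ⟨S0, hS0⟩ : ∃ S0, S0 = ENNReal.ofReal (C * |a|) := ⟨_, rfl⟩
  have e2 : ENNReal.ofReal (Real.exp 1) ^ n * ((1 : ℝ≥0∞) + A * (G ^ n * S0)) ≤
      ENNReal.ofReal (Real.exp (n + 1) * (1 + Q * (4 / (δ * ρ ^ 2)) * Real.exp (ε / 16 * y) * (C * |a|) *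
        (C * |a| ^ (-(ε / 16))) ^ n)) := by
    have e3 : G ^ n = ENNReal.ofReal ((C * |a| ^ (-(ε / 16))) ^ n) := by rw [hG, ENNReal.ofReal_pow (by positivity)]
    have e4 : ENNReal.ofReal (Real.exp 1) ^ n = ENNReal.ofReal (Real.exp n) := by
      rw [← ENNReal.ofReal_pow (Real.exp_pos _).le, ← Real.exp_nat_mul, mul_one]
    rw [e3, e4, hA, hS0, ← ENNReal.ofReal_mul (by positivity),
      ← ENNReal.ofReal_mul (by positivity), ← ENNReal.ofReal_one, ← ENNReal.ofReal_add (by norm_num) (by positivity),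
      ← ENNReal.ofReal_mul (by positivity)]
    refine ENNReal.ofReal_le_ofReal (mul_le_mul (Real.exp_le_exp.2 (by linarith)) ?_ (by positivity) (Real.exp_pos _).le)
    have h1 : Q / (δ * ρ ^ 2) * Real.exp (ε / 16 * y) * 2 * ((C * |a| ^ (-(ε / 16))) ^ n * (C * |a|)) ≤
        Q / (δ * ρ ^ 2) * Real.exp (ε / 16 * y) * 4 * ((C * |a| ^ (-(ε / 16))) ^ n * (C * |a|)) := by
      gcongr
      norm_num
    have h2 : Q * (4 / (δ * ρ ^ 2)) * Real.exp (ε / 16 * y) * (C * |a|) * (C * |a| ^ (-(ε / 16))) ^ n =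
        Q / (δ * ρ ^ 2) * Real.exp (ε / 16 * y) * 4 * ((C * |a| ^ (-(ε / 16))) ^ n * (C * |a|)) := by ring
    rw [h2]
    linarith
  -- the noise
  have hsh : ∀ (l : Fin M) (j : ℕ), ∃ S : Ow d → ℝ → Ow d, (Measurable fun q : Ow d × ℝ => S q.1 q.2) ∧
      (j < n → (∀ G : Ow d → ℝ≥0∞, Measurable G →
        ∫⁻ w, G w ∂lawL d ≤ ENNReal.ofReal (Real.exp 1) * ∫⁻ w, ∫⁻ t, G (S w t) ∂un ∂lawL d) ∧
      ∀ w, Hw γ w ≠ ∞ → ∀ t,
        (∀ i < n + 1, sq α (frc γ e U (S w t)) (β l) i =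
          Function.update (sq α (frc γ e U w) (β l)) j (sq α (frc γ e U w) (β l) j + s * t) i) ∧
        ∀ l', l' ≠ l → ∀ i < n + 1, sq α (frc γ e U (S w t)) (β l') i = sq α (frc γ e U w) (β l') i) := by
    intro l j
    by_cases hj : j < n
    · obtain ⟨S, h1, h2, h3⟩ := Pool.Agent.Helper99.AF.shift1 (e := e) hγ hU hr₀ hS hN hP hint hs0.le hsU l j (by omega)
      exact ⟨S, h1, fun _ => ⟨h2, h3⟩⟩
    · exact ⟨fun w _ => w, measurable_fst, fun h => absurd h hj⟩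
  choose S hSm hS1 using hsh
  -- the functions
  obtain ⟨φ, hφ⟩ : ∃ φ : Fin M → ℕ → Ow d → ℝ≥0∞, ∀ l j w, φ l j w =
    1 + A * (G ^ (n - j) * IL ε s a j (sq α (frc γ e U w) (β l))) := ⟨_, fun _ _ _ => rfl⟩
  have hφm : ∀ l j, Measurable (φ l j) := by
    intro l j
    have : φ l j = fun w => 1 + A * (G ^ (n - j) * IL ε s a j (sq α (frc γ e U w) (β l))) := funext fun w => hφ l j w
    rw [this]
    exact ((((IL_meas ε s a j).comp (seq_meas γ e U α (β l))).const_mul _).const_mul _).const_add _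
  have hmain := Pool.Agent.Helper95.AF.peel2 (μ := lawL d) (τ := un) (J := n) hφm hSm (C := ENNReal.ofReal (Real.exp 1))
    (Z := {w | Hw γ w ≠ ∞}) (Pool.Agent.Helper82.AN.Hw_ae hγ) (fun l j hj => (hS1 l j hj).1) ?_ ?_
  · calc ∫⁻ w, ∏ l, (1 + ENNReal.ofReal Q *
          {b : ℕ → ℝ | rr a (n + 1) ρ δ cap b < y}.indicator 1 (sq α (frc γ e U w) (β l))) ∂lawL d
        ≤ ∫⁻ w, ∏ l, φ l n w ∂lawL d := by
          refine lintegral_mono fun w => Finset.prod_le_prod' fun l _ => ?_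
          rw [hφ, Nat.sub_self, pow_zero, one_mul]
          refine add_le_add le_rfl ?_
          by_cases hb : rr a (n + 1) ρ δ cap (sq α (frc γ e U w) (β l)) < y
          · rw [Set.indicator_of_mem (show sq α (frc γ e U w) (β l) ∈ {b : ℕ → ℝ | rr a (n + 1) ρ δ cap b < y} from hb),
              Pi.one_apply, mul_one, hA]
            exact markov hε hs1 hρ hρ1 hδ hy hyc hQ _ hb
          · rw [Set.indicator_of_notMem (show sq α (frc γ e U w) (β l) ∉ {b : ℕ → ℝ | rr a (n + 1) ρ δ cap b < y} from hb),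
              mul_zero]
            exact zero_le
      _ ≤ ENNReal.ofReal (Real.exp 1) ^ (M * n) * ∫⁻ w, ∏ l, φ l 0 w ∂lawL d := hmain
      _ ≤ ENNReal.ofReal (Real.exp 1) ^ (M * n) * ∫⁻ _w, ∏ _l : Fin M, ((1 : ℝ≥0∞) + A * (G ^ n * S0)) ∂lawL d := by
          refine mul_le_mul_right (lintegral_mono fun w => Finset.prod_le_prod' fun l _ => ?_) _
          rw [hφ, Nat.sub_zero]
          refine add_le_add le_rfl (mul_le_mul_right (mul_le_mul_right ?_ _) _)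
          refine (start ε a s (sq α (frc γ e U w) (β l)) hε hε1 ha100 hs).trans ?_
          rw [hS0]
          exact ENNReal.ofReal_le_ofReal (by gcongr)
      _ = (ENNReal.ofReal (Real.exp 1) ^ n * ((1 : ℝ≥0∞) + A * (G ^ n * S0))) ^ M := by
          simp only [Finset.prod_const, Finset.card_univ, Fintype.card_fin, lintegral_const, measure_univ, mul_one]
          rw [mul_comm M n, pow_mul, ← mul_pow]
      _ ≤ _ := by gcongr
  · -- other windows
    intro l l' hl j hj i hi w hw t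
    rw [hφ, hφ, IL_congr fun m hm => ((hS1 l j hj).2 w hw t).2 l' hl m (by omega)]
  · -- the same window
    intro l j hj w hw
    obtain ⟨b, hb⟩ : ∃ b, b = sq α (frc γ e U w) (β l) := ⟨_, rfl⟩
    have e1 : ∀ t, φ l (j + 1) (S l j w t) =
        1 + A * (G ^ (n - (j + 1)) * IL ε s a (j + 1) (Function.update b j (b j + s * t))) := by
      intro t
      rw [hφ, hb, IL_congr fun m hm => ((hS1 l j hj).2 w hw t).1 m (by omega)]
    have m1 : Measurable fun t : ℝ => IL ε s a (j + 1) (Function.update b j (b j + s * t)) :=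
      (IL_meas ε s a (j + 1)).comp (upd_meas b j s)
    simp only [e1]
    rw [lintegral_add_left measurable_const, lintegral_const, measure_univ, mul_one, lintegral_const_mul _ (m1.const_mul _),
      lintegral_const_mul _ m1, hφ, ← hb]
    have h5 : n - j = (n - (j + 1)) + 1 := by omega
    rw [h5, pow_succ, mul_assoc]
    refine add_le_add le_rfl (mul_le_mul_right (mul_le_mul_right ?_ _) _)
    refine (IL_step ε s a (j + 1) j b (g := fun z => G * ly ε s a b j z) fun z => ?_).trans ?_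
    · refine (step a s j b z haA hs).trans ?_
      rw [hG]
      gcongr
    · rw [lintegral_const_mul]
      · rfl
      · exact ly_meas1 ε s a j b

end Pool.Agent.Helper30.AG
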