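import Pool.Agent.Helper30.AG.BaseExp
import Pool.Agent.Helper38.AG.StepLyFin
import Pool.Agent.Helper6.AG.Orb

/-! # Project AG (`MP_9ee088_an`), block BE: expectation over `M` windows, base level, without hypothesis -/

set_option autoImplicit false
open MeasureTheory Real Set Filter Topology
open scoped ENNReal

namespace Pool.Agent.Helper30.AG

open Pool.Agent.Helper95.AG
open Pool.Agent.Helper46.QP (TT Td)
open Pool.Agent.Helper82.AN (Ow lawL eta Hw sq SepR)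
open Pool.Agent.Helper95.AF (rr frc)

/-- **BE**: expectation over `M` windows, base level -/
theorem base_exp {ε : ℝ} (hε : 0 < ε) (hε1 : ε ≤ 1 / 2) : ∃ C A₀ : ℝ, 1 ≤ C ∧ 1 ≤ A₀ ∧ ∀ (d : ℕ) (γ : ℝ) (k : ℕ)
    (e : Fin k → Td d → ℝ) (U : Fin (k + 1) → ℝ) (α : Td d)
    (r₀ a ρ δ cap y Q : ℝ) (n M N P : ℕ) (β : Fin M → Td d), 0 < γ → (∀ i, Continuous (e i)) → U 0 ≠ 0 →
    0 < r₀ → SepR α r₀ (n + 1) M β → 1 ≤ N → 1 ≤ P → 2 * ((M * (n + 1) : ℕ) : ℝ) ≤ (2 * N * r₀) ^ (2 * P) → A₀ ≤ |a| →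
    0 < ρ → ρ ≤ 1 → 0 < δ → 0 ≤ y → y ≤ cap → 0 ≤ Q →
    |a| ^ (ε - 1) ≤ |U 0| * Real.exp (-((P * N : ℝ) ^ γ)) / 20 →
    ∫⁻ w, ∏ l, (1 + ENNReal.ofReal Q *
      {b : ℕ → ℝ | rr a (n + 1) ρ δ cap b < y}.indicator 1 (sq α (frc γ e U w) (β l))) ∂lawL d ≤
      (ENNReal.ofReal (Real.exp (n + 1) * (1 + Q * (4 / (δ * ρ ^ 2)) * Real.exp (ε / 16 * y) * (C * |a|) *
        (C * |a| ^ (-(ε / 16))) ^ n))) ^ M :=
  base_exp_of hε hε1 (Pool.Agent.Helper6.AG.step_orb_of (Pool.Agent.Helper38.AG.step_ly hε hε1))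

end Pool.Agent.Helper30.AG
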